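import Pool.Agent.BED.Stmts

/-!
# Squad BED: row KSC
-/

namespace Pool.Agent.BED.H21

open Set Filter Topology MeasureTheory
open scoped InnerProductSpace ENNReal
open Pool.Agent.BE01
open Pool.Agent.BED

noncomputable section

section abs

variable {X Y H : Type} [NormedCommRing X] [NormedAlgebra ℝ X] [NormedAddCommGroup Y]
  [NormedSpace ℝ Y] [NormedAddCommGroup H] [InnerProductSpace ℝ H]

theorem e_mul (A : Alg X Y H) (x x' : X) : A.e (x * x') = A.mH x (A.e x') := by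
  show A.j (A.i (x * x')) = A.mH x (A.j (A.i x'))
  rw [← A.mY_i, A.j_mY]

/-- The elements of `X` in `K`. -/
def XS (A : Alg X Y H) (K : Submodule ℝ H) (hP : Pst A K) : Subalgebra ℝ X where
  carrier := {x | A.e x ∈ K}
  mul_mem' := by
    intro x x' hx hx'
    show A.e (x * x') ∈ K
    rw [e_mul]
    exact hP.mH x _ hx hx'
  add_mem' := by
    intro x x' hx hx'
    show A.e (x + x') ∈ K
    rw [map_add]
    exact K.add_mem hx hx'
  algebraMap_mem' := by
    intro r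
    show A.e (algebraMap ℝ X r) ∈ K
    rw [Algebra.algebraMap_eq_smul_one, map_smul]
    exact K.smul_mem r hP.one

/-- The elements of `Y` in `K`. -/
def YS (A : Alg X Y H) (K : Submodule ℝ H) : Submodule ℝ Y where
  carrier := {y | A.j y ∈ K}
  add_mem' := by
    intro x x' hx hx'
    show A.j (x + x') ∈ K
    rw [map_add]
    exact K.add_mem hx hx'
  zero_mem' := by
    show A.j 0 ∈ K
    rw [map_zero]; exact K.zero_mem
  smul_mem' := by
    intro c x hx
    show A.j (c • x) ∈ K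
    rw [map_smul]
    exact K.smul_mem c hx

theorem XS_closed (A : Alg X Y H) (K : Submodule ℝ H) (hP : Pst A K) :
    IsClosed (XS A K hP : Set X) := hP.closed.preimage A.e.continuous

theorem YS_closed (A : Alg X Y H) (K : Submodule ℝ H) (hP : Pst A K) :
    IsClosed (YS A K : Set Y) := hP.closed.preimage A.j.continuous

/-- The products in `K`. -/
def AS (A : Alg X Y H) (K : Submodule ℝ H) (hP : Pst A K) : Alg (XS A K hP) (YS A K) K where
  i := ⟨⟨⟨fun x => ⟨A.i x, x.2⟩, fun x y => Subtype.ext (map_add A.i (x : X) y)⟩,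
    fun c x => Subtype.ext (map_smul A.i c (x : X))⟩,
    (A.i.continuous.comp continuous_subtype_val).subtype_mk _⟩
  j := ⟨⟨⟨fun y => ⟨A.j y, y.2⟩, fun x y => Subtype.ext (map_add A.j (x : Y) y)⟩,
    fun c x => Subtype.ext (map_smul A.j c (x : Y))⟩,
    (A.j.continuous.comp continuous_subtype_val).subtype_mk _⟩
  mY := LinearMap.mkContinuous₂ (LinearMap.mk₂ ℝ
    (fun (x : XS A K hP) (y : YS A K) => (⟨A.mY x y, by
      show A.j (A.mY x y) ∈ K
      rw [A.j_mY]; exact hP.mH _ _ x.2 y.2⟩ : YS A K))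
    (fun x x' y => Subtype.ext (by
      show A.mY ((x : X) + x') y = A.mY x y + A.mY x' y
      rw [map_add]; rfl))
    (fun c x y => Subtype.ext (by
      show A.mY (c • (x : X)) y = c • A.mY x y
      rw [map_smul]; rfl))
    (fun x y y' => Subtype.ext (map_add (A.mY x) (y : Y) y'))
    (fun c x y => Subtype.ext (map_smul (A.mY x) c (y : Y)))) 1
    (fun x y => by rw [one_mul]; exact A.nY x y)
  mH := LinearMap.mkContinuous₂ (LinearMap.mk₂ ℝ
    (fun (x : XS A K hP) (y : K) => (⟨A.mH x y, hP.mH _ _ x.2 y.2⟩ : K))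
    (fun x x' y => Subtype.ext (by
      show A.mH ((x : X) + x') y = A.mH x y + A.mH x' y
      rw [map_add]; rfl))
    (fun c x y => Subtype.ext (by
      show A.mH (c • (x : X)) y = c • A.mH x y
      rw [map_smul]; rfl))
    (fun x y y' => Subtype.ext (map_add (A.mH x) (y : H) y'))
    (fun c x y => Subtype.ext (map_smul (A.mH x) c (y : H)))) 1
    (fun x y => by rw [one_mul]; exact A.nH x y)
  B := LinearMap.mkContinuous₂ (LinearMap.mk₂ ℝ
    (fun (x : YS A K) (y : YS A K) => (⟨A.B x y, hP.B _ _ x.2 y.2⟩ : K))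
    (fun x x' y => Subtype.ext (by
      show A.B ((x : Y) + x') y = A.B x y + A.B x' y
      rw [map_add]; rfl))
    (fun c x y => Subtype.ext (by
      show A.B (c • (x : Y)) y = c • A.B x y
      rw [map_smul]; rfl))
    (fun x y y' => Subtype.ext (map_add (A.B x) (y : Y) y'))
    (fun c x y => Subtype.ext (map_smul (A.B x) c (y : Y)))) 1
    (fun x y => by rw [one_mul]; exact A.nB x y)
  i_inj := fun x x' h => Subtype.ext (A.i_inj (congrArg Subtype.val h))
  j_inj := fun x x' h => Subtype.ext (A.j_inj (congrArg Subtype.val h))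
  one_mY := fun y => Subtype.ext (A.one_mY y)
  one_mH := fun y => Subtype.ext (A.one_mH y)
  mul_mY := fun x x' y => Subtype.ext (A.mul_mY x x' y)
  mul_mH := fun x x' y => Subtype.ext (A.mul_mH x x' y)
  mY_i := fun x x' => Subtype.ext (A.mY_i x x')
  j_mY := fun x x' => Subtype.ext (A.j_mY x x')
  B_symm := fun x x' => Subtype.ext (A.B_symm x x')
  B_i := fun x x' => Subtype.ext (A.B_i x x')
  B_mY := fun x y y' => Subtype.ext (A.B_mY x y y')
  nY := fun x y => A.nY x y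
  nH := fun x y => A.nH x y
  nB := fun x y => A.nB x y

/-- Restriction of an operator. -/
def rs (T : H →L[ℝ] H) (K : Submodule ℝ H) (h : ∀ x ∈ K, T x ∈ K) : K →L[ℝ] K :=
  (T.comp K.subtypeL).codRestrict K (fun x => h x x.2)

theorem rs_coe (T : H →L[ℝ] H) (K : Submodule ℝ H) (h : ∀ x ∈ K, T x ∈ K) (x : K) :
    ((rs T K h x : K) : H) = T x := rfl

theorem hda_coe {K : Submodule ℝ H} {f : ℝ → K} {f' : K} {x : ℝ} :
    HasDerivAt f f' x ↔ HasDerivAt (fun s => (f s : H)) (f' : H) x := by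
  rw [hasDerivAt_iff_tendsto_slope, hasDerivAt_iff_tendsto_slope, tendsto_subtype_rng]
  rfl

/-- The lift of `S`. -/
def SXs {A : Alg X Y H} (W : Wv A) (K : Submodule ℝ H) (hP : Pst A K)
    (hS : ∀ h ∈ K, W.S h ∈ K) : K →L[ℝ] XS A K hP :=
  have hm : ∀ x : K, W.SX x ∈ XS A K hP := fun x => by
    show A.e (W.SX x) ∈ K
    rw [W.e_SX]; exact hS _ x.2
  ⟨⟨⟨fun x => ⟨W.SX x, hm x⟩, fun x y => Subtype.ext (map_add W.SX (x : H) y)⟩,
    fun c x => Subtype.ext (map_smul W.SX c (x : H))⟩,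
    (W.SX.continuous.comp continuous_subtype_val).subtype_mk _⟩

/-- The lift of `R`. -/
def RYs {A : Alg X Y H} (W : Wv A) (K : Submodule ℝ H)
    (hR : ∀ h ∈ K, W.R h ∈ K) : K →L[ℝ] YS A K :=
  have hm : ∀ x : K, W.RY x ∈ YS A K := fun x => by
    show A.j (W.RY x) ∈ K
    rw [W.j_RY]; exact hR _ x.2
  ⟨⟨⟨fun x => ⟨W.RY x, hm x⟩, fun x y => Subtype.ext (map_add W.RY (x : H) y)⟩,
    fun c x => Subtype.ext (map_smul W.RY c (x : H))⟩,
    (W.RY.continuous.comp continuous_subtype_val).subtype_mk _⟩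

theorem prp_rs {S R : H →L[ℝ] H} {C Sn : ℝ → H →L[ℝ] H} (h0 : Prp H S R C Sn)
    (K : Submodule ℝ H) (hS : ∀ h ∈ K, S h ∈ K) (hR : ∀ h ∈ K, R h ∈ K)
    (hC : ∀ τ, ∀ h ∈ K, C τ h ∈ K) (hSn : ∀ τ, ∀ h ∈ K, Sn τ h ∈ K) :
    Prp K (rs S K hS) (rs R K hR) (fun τ => rs (C τ) K (hC τ)) (fun τ => rs (Sn τ) K (hSn τ)) where
  RR := fun h => Subtype.ext (h0.RR h)
  R_inj := fun _ _ e => Subtype.ext (h0.R_inj (congrArg Subtype.val e))
  R_symm := fun h k => h0.R_symm h k
  C_zero := fun h => Subtype.ext (h0.C_zero h)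
  Sn_zero := fun h => Subtype.ext (h0.Sn_zero h)
  C_le := fun τ h => h0.C_le τ h
  Sn_le := fun τ h => h0.Sn_le τ h
  C_cont := fun h => (h0.C_cont h).subtype_mk _
  Sn_cont := fun h => (h0.Sn_cont h).subtype_mk _
  R_C := fun τ h => Subtype.ext (h0.R_C τ h)
  R_Sn := fun τ h => Subtype.ext (h0.R_Sn τ h)
  dS := fun h τ => hda_coe.2 (h0.dS h τ)
  dC := fun h τ => hda_coe.2 (h0.dC h τ)

/-- The operators in `K`. -/
def WS {A : Alg X Y H} (W : Wv A) (K : Submodule ℝ H) (hP : Pst A K)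
    (hS : ∀ h ∈ K, W.S h ∈ K) (hR : ∀ h ∈ K, W.R h ∈ K) (hC : ∀ τ, ∀ h ∈ K, W.C τ h ∈ K)
    (hSn : ∀ τ, ∀ h ∈ K, W.Sn τ h ∈ K) : Wv (AS A K hP) where
  S := rs W.S K hS
  R := rs W.R K hR
  C := fun τ => rs (W.C τ) K (hC τ)
  Sn := fun τ => rs (W.Sn τ) K (hSn τ)
  SX := SXs W K hP hS
  RY := RYs W K hR
  prp := prp_rs W.prp K hS hR hC hSn
  e_SX := fun h => Subtype.ext (W.e_SX h)
  j_RY := fun h => Subtype.ext (W.j_RY h)

end abs

theorem ksc (SCL : Pool.Agent.Helper70BE01Scl.SclStmt) : KscStmt := by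
  intro X Y H _ _ _ _ _ _ _ _ _ A W K p a0 ω φ N hP hK hS hφK hp ha0 hω hφ hSφ hγ hN hkap hslv
  obtain ⟨hR, hC, hSn⟩ := hK K hP.closed hS
  have : CompleteSpace (XS A K hP) := (XS_closed A K hP).completeSpace_coe
  have : CompleteSpace (YS A K) := (YS_closed A K hP).completeSpace_coe
  have : CompleteSpace K := hP.closed.completeSpace_coe
  obtain ⟨t0, c, C, u, x, k, w, h, ht0, hc, hw, hh, hall⟩ := SCL (XS A K hP) (YS A K) K
    (AS A K hP) (WS W K hP hS hR hC hSn) p a0 ω ⟨φ, hφK⟩ N hp ha0 hω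
    (fun e => hφ (congrArg Subtype.val e)) (Subtype.ext hSφ) hγ hN hkap
    ⟨fun F hF => by
      obtain ⟨q, hq, e⟩ := hslv.one F F.2 hF
      exact ⟨⟨q, hq⟩, Subtype.ext e⟩,
     fun n hn h3 hnM F => by
      obtain ⟨q, hq, e⟩ := hslv.odd n hn h3 hnM F F.2
      exact ⟨⟨q, hq⟩, Subtype.ext e⟩⟩
  refine ⟨t0, c, C, fun t => (u t : H), fun t => (x t : X), fun t => (k t : H),
    fun t => (w t : H), fun t => (h t : H), ht0, hc, continuous_subtype_val.comp_continuousOn hw,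
    continuous_subtype_val.comp_continuousOn hh, fun t ht => ?_⟩
  obtain ⟨a1, a2, a3, a4, a5, a6, a7⟩ := hall t ht
  exact ⟨hda_coe.1 a1, hda_coe.1 a2, congrArg Subtype.val a3, congrArg Subtype.val a4,
    congrArg Subtype.val a5, a6, a7⟩

end

end Pool.Agent.BED.H21
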